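import Mathlib

/-!
# The dyadic maximal inequality on the circle
-/

set_option autoImplicit false

open Filter Topology Metric Set MeasureTheory

namespace Pool.Agent.Y941.TY

/-- The dyadic points. -/
noncomputable def dp (j : ℕ) (x : ℝ) : ℝ := 2 * Real.pi * x / 2 ^ j

lemma dp_lt {j : ℕ} {x y : ℝ} : dp j x < dp j y ↔ x < y := by
  unfold dp
  have h1 : (0 : ℝ) < 2 ^ j := by positivity
  have h2 := Real.pi_pos
  rw [div_lt_div_iff_of_pos_right h1]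
  constructor
  · intro h
    exact lt_of_mul_lt_mul_left h (by positivity)
  · intro h
    exact mul_lt_mul_of_pos_left h (by positivity)

lemma dp_succ (j : ℕ) (x : ℝ) : dp (j + 1) (2 * x) = dp j x := by
  unfold dp
  rw [pow_succ]
  field_simp

lemma dp_uniq {j i i' : ℕ} {θ : ℝ} (h : θ ∈ Ico (dp j i) (dp j (i + 1)))
    (h' : θ ∈ Ico (dp j i') (dp j (i' + 1))) : i = i' := by
  have h1 : dp j i < dp j (i' + 1) := lt_of_le_of_lt h.1 h'.2
  have h2 : dp j i' < dp j (i + 1) := lt_of_le_of_lt h'.1 h.2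
  rw [dp_lt] at h1 h2
  have h3 : i < i' + 1 := by exact_mod_cast h1
  have h4 : i' < i + 1 := by exact_mod_cast h2
  omega

/-- The union of the heavy arcs of the levels `j₀, ..., j₀ + n` in the arc with number `i₀` of the
level `j₀`. -/
def EE (F : ℝ → ℝ) (Λ : ℝ) (n j₀ i₀ : ℕ) : Set ℝ :=
  {θ | θ ∈ Ico (dp j₀ i₀) (dp j₀ (i₀ + 1)) ∧ ∃ j, j₀ ≤ j ∧ j ≤ j₀ + n ∧ ∃ i : ℕ,
    θ ∈ Ico (dp j i) (dp j (i + 1)) ∧
      Λ ≤ 2 ^ j / (2 * Real.pi) * ∫ t in (dp j i)..(dp j (i + 1)), F t}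

lemma EE_le {F : ℝ → ℝ} {Λ : ℝ} (hF : Continuous F) (hF0 : ∀ t, 0 ≤ F t) (hΛ : 0 < Λ) (n : ℕ) :
    ∀ j₀ i₀ : ℕ, volume (EE F Λ n j₀ i₀) ≤
      ENNReal.ofReal (1 / Λ * ∫ t in (dp j₀ i₀)..(dp j₀ (i₀ + 1)), F t) := by
  have hheavy : ∀ (n j₀ i₀ : ℕ),
      Λ ≤ 2 ^ j₀ / (2 * Real.pi) * (∫ t in (dp j₀ i₀)..(dp j₀ (i₀ + 1)), F t) →
      volume (EE F Λ n j₀ i₀) ≤
        ENNReal.ofReal (1 / Λ * ∫ t in (dp j₀ i₀)..(dp j₀ (i₀ + 1)), F t) := by
    intro n j₀ i₀ hh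
    refine (measure_mono (fun θ hθ => hθ.1 : EE F Λ n j₀ i₀ ⊆
      Ico (dp j₀ i₀) (dp j₀ (i₀ + 1)))).trans ?_
    rw [Real.volume_Ico]
    refine ENNReal.ofReal_le_ofReal ?_
    have h1 : dp j₀ (i₀ + 1) - dp j₀ i₀ = 2 * Real.pi / 2 ^ j₀ := by
      unfold dp
      ring
    have hπ := Real.pi_pos
    have h2 : (0 : ℝ) < 2 ^ j₀ := by positivity
    rw [h1, one_div, ← div_eq_inv_mul, le_div_iff₀ hΛ]
    calc 2 * Real.pi / 2 ^ j₀ * Λ ≤ 2 * Real.pi / 2 ^ j₀ *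
          (2 ^ j₀ / (2 * Real.pi) * (∫ t in (dp j₀ i₀)..(dp j₀ (i₀ + 1)), F t)) :=
          mul_le_mul_of_nonneg_left hh (by positivity)
      _ = _ := by
          field_simp
  induction n with
  | zero =>
    intro j₀ i₀
    by_cases hh : Λ ≤ 2 ^ j₀ / (2 * Real.pi) * (∫ t in (dp j₀ i₀)..(dp j₀ (i₀ + 1)), F t)
    · exact hheavy _ _ _ hh
    · have h1 : EE F Λ 0 j₀ i₀ = ∅ := by
        rw [Set.eq_empty_iff_forall_notMem]
        rintro θ ⟨hθ, j, h2, h3, i, h4, h5⟩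
        obtain rfl : j = j₀ := by omega
        obtain rfl := dp_uniq h4 hθ
        exact hh h5
      rw [h1, measure_empty]
      exact bot_le
  | succ n ih =>
    intro j₀ i₀
    by_cases hh : Λ ≤ 2 ^ j₀ / (2 * Real.pi) * (∫ t in (dp j₀ i₀)..(dp j₀ (i₀ + 1)), F t)
    · exact hheavy _ _ _ hh
    · have e1 : dp (j₀ + 1) ((2 * i₀ : ℕ) : ℝ) = dp j₀ i₀ := by
        rw [← dp_succ j₀ (i₀ : ℝ)]
        push_cast
        rfl
      have e2 : dp (j₀ + 1) (((2 * i₀ + 1 : ℕ) : ℝ) + 1) = dp j₀ (i₀ + 1) := by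
        rw [← dp_succ j₀ ((i₀ : ℝ) + 1)]
        congr 1
        push_cast
        ring
      have e3 : dp (j₀ + 1) (((2 * i₀ : ℕ) : ℝ) + 1) = dp (j₀ + 1) ((2 * i₀ + 1 : ℕ) : ℝ) := by
        congr 1
        push_cast
        ring
      have hsub : EE F Λ (n + 1) j₀ i₀ ⊆
          EE F Λ n (j₀ + 1) (2 * i₀) ∪ EE F Λ n (j₀ + 1) (2 * i₀ + 1) := by
        rintro θ ⟨hθ, j, h2, h3, i, h4, h5⟩
        have hj : j ≠ j₀ := by
          rintro rfl
          obtain rfl := dp_uniq h4 hθ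
          exact hh h5
        by_cases hm : θ < dp (j₀ + 1) ((2 * i₀ + 1 : ℕ) : ℝ)
        · left
          refine ⟨⟨?_, ?_⟩, j, by omega, by omega, i, h4, h5⟩
          · rw [e1]
            exact hθ.1
          · rw [e3]
            exact hm
        · right
          refine ⟨⟨not_lt.1 hm, ?_⟩, j, by omega, by omega, i, h4, h5⟩
          rw [e2]
          exact hθ.2
      refine (measure_mono hsub).trans ((measure_union_le _ _).trans ?_)
      refine (add_le_add (ih (j₀ + 1) (2 * i₀)) (ih (j₀ + 1) (2 * i₀ + 1))).trans ?_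
      have hle : ∀ j x : ℝ, x ≤ j → 0 ≤ ∫ t in x..j, F t := fun j x hx =>
        intervalIntegral.integral_nonneg hx fun t _ => hF0 t
      rw [← ENNReal.ofReal_add, ← mul_add, e1, e2, e3]
      · rw [intervalIntegral.integral_add_adjacent_intervals (hF.intervalIntegrable _ _)
          (hF.intervalIntegrable _ _)]
      · refine mul_nonneg (by positivity) (hle _ _ ?_)
        exact (dp_lt.2 (by linarith)).le
      · refine mul_nonneg (by positivity) (hle _ _ ?_)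
        exact (dp_lt.2 (by linarith)).le

/-- The dyadic maximal inequality on the circle. -/
def St_Dyad2 : Prop := ∀ (F : ℝ → ℝ) (N : ℕ) (Λ : ℝ), Continuous F → (∀ t, 0 ≤ F t) → 0 < Λ →
  volume {θ : ℝ | θ ∈ Set.Ico 0 (2 * Real.pi) ∧ ∃ j ≤ N, ∃ i : ℕ, i < 2 ^ j ∧
    θ ∈ Set.Ico (2 * Real.pi * i / 2 ^ j) (2 * Real.pi * (i + 1) / 2 ^ j) ∧
    Λ ≤ 2 ^ j / (2 * Real.pi) *
      ∫ t in (2 * Real.pi * i / 2 ^ j)..(2 * Real.pi * (i + 1) / 2 ^ j), F t} ≤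
  ENNReal.ofReal (1 / Λ * ∫ t in (0 : ℝ)..(2 * Real.pi), F t)

theorem dyad2 : St_Dyad2 := by
  intro F N Λ hF hF0 hΛ
  have h1 := EE_le hF hF0 hΛ N 0 0
  have e1 : dp 0 ((0 : ℕ) : ℝ) = 0 := by simp [dp]
  have e2 : dp 0 (((0 : ℕ) : ℝ) + 1) = 2 * Real.pi := by simp [dp]
  rw [e1, e2] at h1
  refine le_trans (measure_mono ?_) h1
  rintro θ ⟨hθ, j, hj, i, _, hi, hh⟩
  refine ⟨?_, j, Nat.zero_le _, by omega, i, hi, hh⟩
  rw [e1, e2]
  exact hθ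

end Pool.Agent.Y941.TY
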